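import Mathlib

set_option autoImplicit false

namespace Pool.Agent.Results.MP_471f68_co.Spanning

/-- The incidence graph of the incidence structure `(V, F; I)`: the bipartite graph on `V ⊔ F` in
which `i ∈ V` and `j ∈ F` are adjacent when `(i, j) ∈ I`. -/
def incidenceGraph {V F : Type} (I : Set (V × F)) : SimpleGraph (V ⊕ F) :=
  SimpleGraph.fromRel (fun x y => ∃ i j, x = Sum.inl i ∧ y = Sum.inr j ∧ (i, j) ∈ I)

/-- `k`-vertex-connectivity: more than `k` vertices, and deleting any fewer than `k` vertices
leaves a connected graph. -/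
def IsVertexConnected {W : Type} [Fintype W] (k : ℕ) (G : SimpleGraph W) : Prop :=
  k < Fintype.card W ∧ ∀ S : Finset W, S.card < k → (G.induce {w | w ∉ S}).Connected

/-- The normal `n^j = (a^j_1, …, a^j_{d-1}, 1)` of the face `j`. -/
def normal {R F : Type} [One R] {d : ℕ} (a : F → Fin (d - 1) → R) (j : F) (k : Fin d) : R :=
  if h : k.val < d - 1 then a j ⟨k.val, h⟩ else 1

/-- The row of the parallel `d`-scene matrix for the pair `x = (i, j)`: columns are the unknowns
`D^j` (`j ∈ F`) and the `d` coordinates of each vertex; entry `1` at `D^j`, the normal `n^j` at the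
columns of vertex `i`, and `0` elsewhere. -/
def row {R V F : Type} [Zero R] [One R] [DecidableEq V] [DecidableEq F] {d : ℕ}
    (a : F → Fin (d - 1) → R) (x : V × F) : F ⊕ (V × Fin d) → R :=
  Sum.elim (fun j => if j = x.2 then 1 else 0)
    (fun c => if c.1 = x.1 then normal a x.2 c.2 else 0)

/-- The rank, in the row matroid of the parallel `d`-scene matrix with normals `a`, of a set of
pairs. -/
noncomputable def parRank {V F : Type} [Fintype V] [Fintype F] [DecidableEq V] [DecidableEq F]
    {d : ℕ} (a : F → Fin (d - 1) → ℝ) (X : Set (V × F)) : ℕ :=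
  Module.finrank ℝ (Submodule.span ℝ (row a '' X))

section algebra

variable {d : ℕ} {F : Type} [Fintype F] [DecidableEq F]
variable {K : Type} [Field K] [Algebra (MvPolynomial (F × Fin (d - 1)) ℚ) K]
  [IsFractionRing (MvPolynomial (F × Fin (d - 1)) ℚ) K]

/-- generic normals as indeterminates -/
noncomputable def nR (j : F) (k : Fin d) : MvPolynomial (F × Fin (d - 1)) ℚ :=
  normal (fun j k => MvPolynomial.X (j, k)) j k

lemma pderiv_nR (j0 : F) (k0 : Fin d) (hk0 : k0.val < d - 1) (j : F) (k : Fin d) :
    MvPolynomial.pderiv (j0, (⟨k0.val, hk0⟩ : Fin (d - 1))) (nR j k) =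
      if j = j0 ∧ k = k0 then 1 else 0 := by
  unfold nR normal
  split_ifs with h1 h2 h2
  · obtain ⟨rfl, rfl⟩ := h2
    exact MvPolynomial.pderiv_X_self _
  · apply MvPolynomial.pderiv_X_of_ne
    intro h
    apply h2
    rw [Prod.mk.injEq, Fin.mk.injEq] at h
    exact ⟨h.1, Fin.ext h.2⟩
  · obtain ⟨_, rfl⟩ := h2
    exact absurd hk0 h1
  · exact MvPolynomial.pderiv_one

/-- `(p, D)` is a polynomial solution of the equations for the incidences `I`. -/
def Sol {C : Type} (I : C → F → Prop) (p : C → Fin d → MvPolynomial (F × Fin (d - 1)) ℚ)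
    (D : F → MvPolynomial (F × Fin (d - 1)) ℚ) : Prop :=
  ∀ c j, I c j → ∑ k, nR j k * p c k + D j = 0

/-- a stress -/
def Stress {C : Type} [Fintype C] (I : C → F → Prop) (lam : C → F → K) : Prop :=
  (∀ c j, ¬ I c j → lam c j = 0) ∧
  (∀ c (k : Fin d), ∑ j, lam c j * algebraMap (MvPolynomial (F × Fin (d - 1)) ℚ) K (nR j k) = 0) ∧
  (∀ j, ∑ c, lam c j = 0)

lemma trick {C : Type} [Fintype C] {I : C → F → Prop} {lam : C → F → K} (hS : Stress (d := d) I lam)
    {p : C → Fin d → MvPolynomial (F × Fin (d - 1)) ℚ}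
    {D : F → MvPolynomial (F × Fin (d - 1)) ℚ} (hsol : Sol I p D) (j0 : F) (k0 : Fin d) :
    ∑ c, lam c j0 * algebraMap (MvPolynomial (F × Fin (d - 1)) ℚ) K (p c k0) = 0 := by
  have main : ∀ k0 : Fin d, k0.val < d - 1 →
      ∑ c, lam c j0 * algebraMap (MvPolynomial (F × Fin (d - 1)) ℚ) K (p c k0) = 0 := by
    intro k0 hk0
    set δ := MvPolynomial.pderiv (R := ℚ) (j0, (⟨k0.val, hk0⟩ : Fin (d - 1))) with hδ
    have h1 : ∀ c j, I c j → ∑ k, nR j k * δ (p c k) + (if j = j0 then p c k0 else 0) + δ (D j)
        = 0 := by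
      intro c j hcj
      have h2 := congrArg δ (hsol c j hcj)
      rw [map_add, map_sum, map_zero] at h2
      have h3 : ∀ k, δ (nR j k * p c k) = nR j k * δ (p c k) +
          (if j = j0 ∧ k = k0 then p c k else 0) := by
        intro k
        rw [Derivation.leibniz, hδ, pderiv_nR, smul_eq_mul, smul_eq_mul]
        congr 1
        split_ifs <;> simp
      simp only [h3, Finset.sum_add_distrib] at h2
      have h4 : ∑ k, (if j = j0 ∧ k = k0 then p c k else 0) = if j = j0 then p c k0 else 0 := by
        by_cases hj : j = j0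
        · simp [hj]
        · simp [hj]
      rw [h4] at h2
      exact h2
    have h5 : ∑ c, ∑ j, lam c j * algebraMap (MvPolynomial (F × Fin (d - 1)) ℚ) K
        (∑ k, nR j k * δ (p c k) + (if j = j0 then p c k0 else 0) + δ (D j)) = 0 := by
      apply Finset.sum_eq_zero
      intro c _
      apply Finset.sum_eq_zero
      intro j _
      by_cases hcj : I c j
      · rw [h1 c j hcj, map_zero, mul_zero]
      · rw [hS.1 c j hcj, zero_mul]
    have h6 : ∀ c j, lam c j * algebraMap (MvPolynomial (F × Fin (d - 1)) ℚ) K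
        (∑ k, nR j k * δ (p c k) + (if j = j0 then p c k0 else 0) + δ (D j)) =
        ∑ k, (lam c j * algebraMap (MvPolynomial (F × Fin (d - 1)) ℚ) K (nR j k)) *
          algebraMap (MvPolynomial (F × Fin (d - 1)) ℚ) K (δ (p c k)) +
        (if j = j0 then lam c j0 * algebraMap (MvPolynomial (F × Fin (d - 1)) ℚ) K (p c k0) else 0)
        + lam c j * algebraMap (MvPolynomial (F × Fin (d - 1)) ℚ) K (δ (D j)) := by
      intro c j
      rw [map_add, map_add, map_sum, mul_add, mul_add, Finset.mul_sum]
      congr 1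
      congr 1
      · apply Finset.sum_congr rfl
        intro k _
        rw [map_mul]; ring
      · split_ifs with h
        · rw [h]
        · rw [map_zero, mul_zero]
    simp only [h6, Finset.sum_add_distrib] at h5
    have h7 : ∑ c, ∑ j, ∑ k, (lam c j * algebraMap (MvPolynomial (F × Fin (d - 1)) ℚ) K (nR j k)) *
          algebraMap (MvPolynomial (F × Fin (d - 1)) ℚ) K (δ (p c k)) = 0 := by
      apply Finset.sum_eq_zero
      intro c _
      rw [Finset.sum_comm]
      apply Finset.sum_eq_zero
      intro k _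
      rw [← Finset.sum_mul, hS.2.1 c k, zero_mul]
    have h8 : ∑ c, ∑ j, lam c j * algebraMap (MvPolynomial (F × Fin (d - 1)) ℚ) K (δ (D j)) = 0 := by
      rw [Finset.sum_comm]
      apply Finset.sum_eq_zero
      intro j _
      rw [← Finset.sum_mul, hS.2.2 j, zero_mul]
    rw [h7, h8, zero_add, add_zero] at h5
    simpa using h5
  by_cases hk0 : k0.val < d - 1
  · exact main k0 hk0
  · -- last coordinate
    have hn : ∀ j : F, nR j k0 = 1 := by
      intro j
      unfold nR normal
      rw [dif_neg hk0]
    have h1 : ∀ c, lam c j0 * algebraMap (MvPolynomial (F × Fin (d - 1)) ℚ) K (p c k0) =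
        -(lam c j0 * algebraMap (MvPolynomial (F × Fin (d - 1)) ℚ) K (D j0)) -
        ∑ k ∈ Finset.univ.erase k0, algebraMap (MvPolynomial (F × Fin (d - 1)) ℚ) K (nR j0 k) *
          (lam c j0 * algebraMap (MvPolynomial (F × Fin (d - 1)) ℚ) K (p c k)) := by
      intro c
      by_cases hcj : I c j0
      · have h2 := congrArg (algebraMap (MvPolynomial (F × Fin (d - 1)) ℚ) K) (hsol c j0 hcj)
        rw [map_add, map_sum, map_zero, ← Finset.add_sum_erase _ _ (Finset.mem_univ k0), hn,
          one_mul] at h2
        simp only [map_mul] at h2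
        have h3 : ∑ k ∈ Finset.univ.erase k0, algebraMap (MvPolynomial (F × Fin (d - 1)) ℚ) K (nR j0 k) *
          (lam c j0 * algebraMap (MvPolynomial (F × Fin (d - 1)) ℚ) K (p c k)) = lam c j0 *
          ∑ k ∈ Finset.univ.erase k0, algebraMap (MvPolynomial (F × Fin (d - 1)) ℚ) K (nR j0 k) *
          (algebraMap (MvPolynomial (F × Fin (d - 1)) ℚ) K (p c k)) := by
          rw [Finset.mul_sum]
          apply Finset.sum_congr rfl
          intro k _
          ring
        rw [h3]
        linear_combination lam c j0 * h2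
      · rw [hS.1 c j0 hcj]
        simp
    simp only [h1, Finset.sum_sub_distrib, Finset.sum_neg_distrib, ← Finset.sum_mul]
    rw [hS.2.2 j0, zero_mul, neg_zero, zero_sub, neg_eq_zero, Finset.sum_comm]
    apply Finset.sum_eq_zero
    intro k hk
    have hk' : k.val < d - 1 := by
      have h2 : k ≠ k0 := Finset.ne_of_mem_erase hk
      have h3 := k.isLt
      have h4 := k0.isLt
      have h5 : k.val ≠ k0.val := fun h => h2 (Fin.ext h)
      omega
    rw [← Finset.mul_sum, main k hk', mul_zero]

lemma stress_mul {C : Type} [Fintype C] {I : C → F → Prop} {lam : C → F → K}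
    (hS : Stress (d := d) I lam) {p : C → Fin d → MvPolynomial (F × Fin (d - 1)) ℚ}
    {D : F → MvPolynomial (F × Fin (d - 1)) ℚ} (hsol : Sol I p D) (k0 : Fin d) (α : K) :
    Stress (d := d) I (fun c j => lam c j *
      (algebraMap (MvPolynomial (F × Fin (d - 1)) ℚ) K (p c k0) - α)) := by
  refine ⟨?_, ?_, ?_⟩
  · intro c j hcj
    simp only [hS.1 c j hcj, zero_mul]
  · intro c k
    have : ∀ j, lam c j * (algebraMap (MvPolynomial (F × Fin (d - 1)) ℚ) K (p c k0) - α) *
        algebraMap (MvPolynomial (F × Fin (d - 1)) ℚ) K (nR j k) =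
        lam c j * algebraMap (MvPolynomial (F × Fin (d - 1)) ℚ) K (nR j k) *
        (algebraMap (MvPolynomial (F × Fin (d - 1)) ℚ) K (p c k0) - α) := by
      intro j; ring
    simp only [this, ← Finset.sum_mul, hS.2.1 c k, zero_mul]
  · intro j
    simp only [mul_sub, Finset.sum_sub_distrib, ← Finset.sum_mul]
    rw [trick hS hsol j k0, hS.2.2 j, zero_mul, sub_zero]

lemma no_stress {C : Type} [Fintype C] {I : C → F → Prop} {lam : C → F → K}
    (hS : Stress (d := d) I lam)
    (hsep : ∀ c c' : C, c ≠ c' → ∃ (p : C → Fin d → MvPolynomial (F × Fin (d - 1)) ℚ)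
      (D : F → MvPolynomial (F × Fin (d - 1)) ℚ), Sol I p D ∧ p c ≠ p c') (c0 : C) (j0 : F) :
    lam c0 j0 = 0 := by
  classical
  have key : ∀ T : Finset C, c0 ∉ T → ∃ ψ : C → K, ψ c0 ≠ 0 ∧ (∀ c ∈ T, ψ c = 0) ∧
      Stress (d := d) I (fun c j => lam c j * ψ c) := by
    intro T
    induction T using Finset.induction_on with
    | empty =>
      intro _
      refine ⟨fun _ => 1, one_ne_zero, by simp, ?_⟩
      simpa using hS
    | insert c' T _ ih =>
      intro hc0
      rw [Finset.mem_insert, not_or] at hc0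
      obtain ⟨ψ, h1, h2, h3⟩ := ih hc0.2
      obtain ⟨p, D, hsol, hne⟩ := hsep c0 c' hc0.1
      obtain ⟨k0, hk0⟩ := Function.ne_iff.1 hne
      refine ⟨fun c => ψ c * (algebraMap (MvPolynomial (F × Fin (d - 1)) ℚ) K (p c k0) -
        algebraMap (MvPolynomial (F × Fin (d - 1)) ℚ) K (p c' k0)), ?_, ?_, ?_⟩
      · refine mul_ne_zero h1 ?_
        rw [sub_ne_zero]
        intro h
        exact hk0 (IsFractionRing.injective (MvPolynomial (F × Fin (d - 1)) ℚ) K h)
      · intro c hc
        rw [Finset.mem_insert] at hc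
        rcases hc with rfl | hc
        · simp
        · simp [h2 c hc]
      · have := stress_mul h3 hsol k0 (algebraMap (MvPolynomial (F × Fin (d - 1)) ℚ) K (p c' k0))
        simpa only [mul_assoc] using this
  obtain ⟨ψ, h1, h2, h3⟩ := key (Finset.univ.erase c0) (Finset.notMem_erase _ _)
  have h4 := h3.2.2 j0
  rw [Finset.sum_eq_single c0] at h4
  · exact (mul_eq_zero.1 h4).resolve_right h1
  · intro c _ hc
    show lam c j0 * ψ c = 0
    rw [h2 c (Finset.mem_erase.2 ⟨hc, Finset.mem_univ _⟩), mul_zero]
  · intro h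
    exact absurd (Finset.mem_univ _) h

lemma count {C : Type} [Fintype C] [DecidableEq C] {I : C → F → Prop} [DecidableRel I] (c0 : C)
    (hns : ∀ lam : C → F → K, Stress (d := d) I lam → ∀ c j, lam c j = 0) :
    Fintype.card {x : C × F // I x.1 x.2} + d ≤ Fintype.card F + Fintype.card C * d := by
  let v : {x : C × F // I x.1 x.2} ⊕ Fin d → (F ⊕ (C × Fin d) → K) :=
    Sum.elim (fun x => Sum.elim (fun j => if j = x.1.2 then 1 else 0)
      (fun c => if c.1 = x.1.1 then
        algebraMap (MvPolynomial (F × Fin (d - 1)) ℚ) K (nR x.1.2 c.2) else 0))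
      (fun k => Sum.elim (fun _ => 0) (fun c => if c = (c0, k) then 1 else 0))
  have hv : LinearIndependent K v := by
    rw [Fintype.linearIndependent_iff]
    intro g hg
    let lam : C → F → K := fun c j => if h : I c j then g (Sum.inl ⟨(c, j), h⟩) else 0
    have hlam : ∀ x : {x : C × F // I x.1 x.2}, lam x.1.1 x.1.2 = g (Sum.inl x) := by
      rintro ⟨⟨c, j⟩, h⟩
      simp only [lam]
      rw [dif_pos h]
    have hlam0 : ∀ c j, ¬ I c j → lam c j = 0 := by
      intro c j h
      simp only [lam]
      rw [dif_neg h]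
    have hsum : ∀ h : C × F → K, ∑ x : {x : C × F // I x.1 x.2}, g (Sum.inl x) * h x.1 =
        ∑ c, ∑ j, lam c j * h (c, j) := by
      intro h
      rw [← Fintype.sum_prod_type' (fun c j => lam c j * h (c, j))]
      have e1 : ∑ x : C × F, lam x.1 x.2 * h (x.1, x.2) =
          ∑ x ∈ Finset.univ.filter (fun x : C × F => I x.1 x.2), lam x.1 x.2 * h (x.1, x.2) := by
        symm
        apply Finset.sum_filter_of_ne
        intro x _ hx
        by_contra hI
        exact hx (by rw [hlam0 _ _ hI, zero_mul])
      rw [e1, Finset.sum_subtype (p := fun x : C × F => I x.1 x.2) _ (by simp)]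
      apply Finset.sum_congr rfl
      intro x _
      rw [hlam]
    have hA : ∀ j, ∑ c, lam c j = 0 := by
      intro j
      have h1 := congrFun hg (Sum.inl j)
      rw [Fintype.sum_sum_type] at h1
      simp only [Pi.add_apply, Finset.sum_apply, Pi.smul_apply, smul_eq_mul, v, Sum.elim_inl,
        Sum.elim_inr, mul_zero, Finset.sum_const_zero, add_zero, Pi.zero_apply] at h1
      rw [hsum (fun x => if j = x.2 then 1 else 0)] at h1
      simpa using h1
    have hB : ∀ c k, ∑ j, lam c j * algebraMap (MvPolynomial (F × Fin (d - 1)) ℚ) K (nR j k) +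
        (if c = c0 then g (Sum.inr k) else 0) = 0 := by
      intro c k
      have h1 := congrFun hg (Sum.inr (c, k))
      rw [Fintype.sum_sum_type] at h1
      simp only [Pi.add_apply, Finset.sum_apply, Pi.smul_apply, smul_eq_mul, v, Sum.elim_inl,
        Sum.elim_inr, Pi.zero_apply] at h1
      rw [hsum (fun x => if c = x.1 then
        algebraMap (MvPolynomial (F × Fin (d - 1)) ℚ) K (nR x.2 k) else 0)] at h1
      have e1 : ∑ c', ∑ j, lam c' j * (if c = c' then
          algebraMap (MvPolynomial (F × Fin (d - 1)) ℚ) K (nR j k) else 0) =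
          ∑ j, lam c j * algebraMap (MvPolynomial (F × Fin (d - 1)) ℚ) K (nR j k) := by
        rw [Finset.sum_eq_single c]
        · simp
        · intro c' _ hc'
          simp [hc'.symm]
        · intro h; exact absurd (Finset.mem_univ _) h
      have e2 : ∑ k', g (Sum.inr k') * (if (c, k) = (c0, k') then 1 else 0) =
          if c = c0 then g (Sum.inr k) else 0 := by
        by_cases hc : c = c0
        · simp [hc]
        · simp [hc]
      rw [e1, e2] at h1
      exact h1
    have hmu : ∀ k, g (Sum.inr k) = 0 := by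
      intro k
      have h1 : ∑ c, (∑ j, lam c j * algebraMap (MvPolynomial (F × Fin (d - 1)) ℚ) K (nR j k) +
        (if c = c0 then g (Sum.inr k) else 0)) = 0 := by
        apply Finset.sum_eq_zero
        intro c _
        exact hB c k
      rw [Finset.sum_add_distrib, Finset.sum_comm] at h1
      simp only [← Finset.sum_mul, hA, zero_mul, Finset.sum_const_zero, zero_add] at h1
      simpa using h1
    have hst : Stress (d := d) I lam := by
      refine ⟨hlam0, ?_, hA⟩
      intro c k
      have := hB c k
      rw [hmu k] at this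
      simpa using this
    intro i
    rcases i with x | k
    · rw [← hlam]
      exact hns lam hst _ _
    · exact hmu k
  have := hv.fintype_card_le_finrank
  rw [Module.finrank_fintype_fun_eq_card] at this
  simpa only [Fintype.card_sum, Fintype.card_prod, Fintype.card_fin] using this

end algebra

lemma conn_prop {W : Type} {G : SimpleGraph W} {S : Set W} (h : (G.induce S).Connected)
    (p : W → Prop) (hp : ∀ u ∈ S, ∀ v ∈ S, G.Adj u v → p u → p v)
    {u : W} (hu : u ∈ S) (hpu : p u) {v : W} (hv : v ∈ S) : p v := by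
  obtain ⟨w⟩ := h.preconnected ⟨u, hu⟩ ⟨v, hv⟩
  have key : ∀ (a b : S) (w : (G.induce S).Walk a b), p a → p b := by
    intro a b w
    induction w with
    | nil => exact id
    | cons hadj _ ih =>
      intro ha
      exact ih (hp _ (Subtype.coe_prop _) _ (Subtype.coe_prop _) (by simpa using hadj) ha)
  exact key _ _ w hpu

lemma adj_inl {V F : Type} {I : Set (V × F)} {i : V} {y : V ⊕ F} :
    (incidenceGraph I).Adj (Sum.inl i) y ↔ ∃ j, y = Sum.inr j ∧ (i, j) ∈ I := by
  unfold incidenceGraph
  rw [SimpleGraph.fromRel_adj]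
  constructor
  · rintro ⟨_, ⟨i', j', h1, h2, h3⟩ | ⟨i', j', h1, h2, h3⟩⟩
    · rw [Sum.inl.injEq] at h1
      subst h1
      exact ⟨j', h2, h3⟩
    · simp at h2
  · rintro ⟨j, rfl, h⟩
    exact ⟨by simp, Or.inl ⟨i, j, rfl, rfl, h⟩⟩

lemma adj_inr {V F : Type} {I : Set (V × F)} {j : F} {y : V ⊕ F} :
    (incidenceGraph I).Adj (Sum.inr j) y ↔ ∃ i, y = Sum.inl i ∧ (i, j) ∈ I := by
  unfold incidenceGraph
  rw [SimpleGraph.fromRel_adj]
  constructor
  · rintro ⟨_, ⟨i', j', h1, h2, h3⟩ | ⟨i', j', h1, h2, h3⟩⟩
    · simp at h1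
    · rw [Sum.inr.injEq] at h2
      subst h2
      exact ⟨i', h1, h3⟩
  · rintro ⟨i, rfl, h⟩
    exact ⟨by simp, Or.inr ⟨i, j, rfl, rfl, h⟩⟩

section main

variable {d : ℕ} {V F : Type} [Fintype V] [Fintype F] [DecidableEq V] [DecidableEq F]

open Classical in
lemma const_of_conn (hd : 2 ≤ d) (I : Set (V × F))
    (hI : IsVertexConnected (2 * d) (incidenceGraph I))
    (p : V → Fin d → MvPolynomial (F × Fin (d - 1)) ℚ) (D : F → MvPolynomial (F × Fin (d - 1)) ℚ)
    (hsol : Sol (fun i j => (i, j) ∈ I) p D) (i1 i2 : V) : p i1 = p i2 := by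
  let K := FractionRing (MvPolynomial (F × Fin (d - 1)) ℚ)
  let s : Setoid V :=
    { r := fun i i' => ∀ (p : V → Fin d → MvPolynomial (F × Fin (d - 1)) ℚ)
        (D : F → MvPolynomial (F × Fin (d - 1)) ℚ), Sol (fun i j => (i, j) ∈ I) p D → p i = p i'
      iseqv := ⟨fun _ _ _ _ => rfl, fun h p D hs => (h p D hs).symm,
        fun h h' p D hs => (h p D hs).trans (h' p D hs)⟩ }
  by_contra hne
  let C := Quotient s
  let J : C → F → Prop := fun c j => ∃ i, (Quotient.mk s i : C) = c ∧ (i, j) ∈ I
  have hsep : ∀ c c' : C, c ≠ c' → ∃ (p : C → Fin d → MvPolynomial (F × Fin (d - 1)) ℚ)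
      (D : F → MvPolynomial (F × Fin (d - 1)) ℚ), Sol J p D ∧ p c ≠ p c' := by
    intro c c' hcc
    induction c using Quotient.inductionOn with
    | _ i =>
    induction c' using Quotient.inductionOn with
    | _ i' =>
      have h1 : ¬ ∀ (p : V → Fin d → MvPolynomial (F × Fin (d - 1)) ℚ)
        (D : F → MvPolynomial (F × Fin (d - 1)) ℚ), Sol (fun i j => (i, j) ∈ I) p D →
          p i = p i' := fun h => hcc (Quotient.sound h)
      push Not at h1
      obtain ⟨p, D, hs, hpi⟩ := h1
      refine ⟨Quotient.lift p (fun a b hab => hab p D hs), D, ?_, hpi⟩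
      rintro c j ⟨i, rfl, hij⟩
      exact hs i j hij
  have hC : (Quotient.mk s i1 : C) ≠ Quotient.mk s i2 := by
    intro h
    exact hne (Quotient.exact h p D hsol)
  have hcount := count (K := K) (d := d) (I := J) (Quotient.mk s i1)
    (fun lam hS c j => no_stress hS hsep c j)
  -- each face has an incident vertex
  have hface : ∀ j : F, ∃ i, (i, j) ∈ I := by
    intro j
    by_contra hno
    push Not at hno
    have h1 := hI.2 ∅ (by simp; omega)
    have h2 := conn_prop h1 (fun w => w = Sum.inr j) (by
      intro u _ v _ huv hu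
      subst hu
      rw [adj_inr] at huv
      obtain ⟨i, _, hi⟩ := huv
      exact absurd hi (hno i)) (u := Sum.inr j) (by simp) rfl (v := Sum.inl i1) (by simp)
    simp at h2
  -- boundary
  let B : C → Finset F := fun c => Finset.univ.filter (fun j => J c j ∧ ∃ c', c' ≠ c ∧ J c' j)
  have hB : ∀ c, 2 * d ≤ (B c).card := by
    intro c
    by_contra hlt
    push Not at hlt
    have h1 := hI.2 ((B c).map ⟨Sum.inr, Sum.inr_injective⟩) (by rw [Finset.card_map]; exact hlt)
    obtain ⟨i0, hi0⟩ := Quotient.exists_rep c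
    obtain ⟨i', hi'⟩ : ∃ i', (Quotient.mk s i' : C) ≠ c := by
      by_contra hall
      push Not at hall
      exact hC ((hall i1).trans (hall i2).symm)
    have h2 := conn_prop h1 (fun w => (∃ i, w = Sum.inl i ∧ (Quotient.mk s i : C) = c) ∨
        (∃ j, w = Sum.inr j ∧ J c j)) ?_ (u := Sum.inl i0) (by simp)
        (Or.inl ⟨i0, rfl, hi0⟩) (v := Sum.inl i') (by simp)
    · rcases h2 with ⟨i, h3, h4⟩ | ⟨j, h3, _⟩
      · rw [Sum.inl.injEq] at h3
        subst h3
        exact hi' h4
      · simp at h3
    · intro u hu v hv huv hPu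
      rcases hPu with ⟨i, rfl, hi⟩ | ⟨j, rfl, hj⟩
      · rw [adj_inl] at huv
        obtain ⟨j, rfl, hij⟩ := huv
        exact Or.inr ⟨j, rfl, i, hi, hij⟩
      · rw [adj_inr] at huv
        obtain ⟨i, rfl, hij⟩ := huv
        refine Or.inl ⟨i, rfl, ?_⟩
        by_contra hic
        have : j ∈ B c := by
          simp only [B, Finset.mem_filter, Finset.mem_univ, true_and]
          exact ⟨hj, _, hic, i, rfl, hij⟩
        simp [this] at hu
  have hsumB : 2 * d * Fintype.card C ≤ ∑ c, (B c).card := by
    calc 2 * d * Fintype.card C = ∑ _c : C, 2 * d := by simp [mul_comm]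
      _ ≤ ∑ c, (B c).card := Finset.sum_le_sum (fun c _ => hB c)
  have hswap : ∑ c, (B c).card =
      ∑ j, (Finset.univ.filter (fun c => J c j ∧ ∃ c', c' ≠ c ∧ J c' j)).card := by
    simp only [B, Finset.card_filter]
    rw [Finset.sum_comm]
  have hN : Fintype.card {x : C × F // J x.1 x.2} = ∑ j, (Finset.univ.filter (fun c => J c j)).card := by
    rw [Fintype.card_subtype, Finset.card_filter, Fintype.sum_prod_type]
    simp only [Finset.card_filter]
    rw [Finset.sum_comm]
  have hj : ∀ j : F, (Finset.univ.filter (fun c => J c j ∧ ∃ c', c' ≠ c ∧ J c' j)).card + 2 ≤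
      2 * (Finset.univ.filter (fun c => J c j)).card := by
    intro j
    obtain ⟨i, hi⟩ := hface j
    have hpos : 0 < (Finset.univ.filter (fun c => J c j)).card :=
      Finset.card_pos.2 ⟨Quotient.mk s i, by simp only [Finset.mem_filter, Finset.mem_univ, true_and]; exact ⟨i, rfl, hi⟩⟩
    have hle : (Finset.univ.filter (fun c => J c j ∧ ∃ c', c' ≠ c ∧ J c' j)).card ≤
        (Finset.univ.filter (fun c => J c j)).card := by
      apply Finset.card_le_card
      intro c hc
      simp only [Finset.mem_filter, Finset.mem_univ, true_and] at hc ⊢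
      exact hc.1
    rcases Nat.lt_or_ge 1 (Finset.univ.filter (fun c => J c j)).card with h | h
    · omega
    · have h0 : (Finset.univ.filter (fun c => J c j ∧ ∃ c', c' ≠ c ∧ J c' j)) = ∅ := by
        apply Finset.filter_eq_empty_iff.2
        rintro c _ ⟨h1, c', h2, h3⟩
        have : ({c, c'} : Finset C) ⊆ Finset.univ.filter (fun c => J c j) := by
          intro x hx
          simp only [Finset.mem_insert, Finset.mem_singleton] at hx
          simp only [Finset.mem_filter, Finset.mem_univ, true_and]
          rcases hx with rfl | rfl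
          · exact h1
          · exact h3
        have := Finset.card_le_card this
        rw [Finset.card_pair h2.symm] at this
        omega
      rw [h0, Finset.card_empty]
      omega
  have hfin : ∑ j, (Finset.univ.filter (fun c => J c j ∧ ∃ c', c' ≠ c ∧ J c' j)).card +
      2 * Fintype.card F ≤ 2 * ∑ j, (Finset.univ.filter (fun c => J c j)).card := by
    rw [Finset.mul_sum]
    calc _ = ∑ j, ((Finset.univ.filter (fun c => J c j ∧ ∃ c', c' ≠ c ∧ J c' j)).card + 2) := by
          rw [Finset.sum_add_distrib]; simp [mul_comm]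
      _ ≤ _ := Finset.sum_le_sum (fun j _ => hj j)
  have e1 : 2 * d * Fintype.card C = 2 * (Fintype.card C * d) := by ring
  omega

lemma row_dot {R : Type} [CommRing R] (a : F → Fin (d - 1) → R) (x : V × F)
    (y : F ⊕ (V × Fin d) → R) :
    ∑ c, row a x c * y c = ∑ k, normal a x.2 k * y (Sum.inr (x.1, k)) + y (Sum.inl x.2) := by
  rw [Fintype.sum_sum_type]
  simp only [row, Sum.elim_inl, Sum.elim_inr]
  rw [Fintype.sum_prod_type, add_comm]
  congr 1
  · rw [Finset.sum_eq_single x.1]
    · simp
    · intro i _ hi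
      simp [hi]
    · intro h; exact absurd (Finset.mem_univ _) h
  · simp

lemma row_map {R S : Type} [CommRing R] [CommRing S] (φ : R →+* S) (a : F → Fin (d - 1) → R)
    (x : V × F) (c : F ⊕ (V × Fin d)) : row (fun j k => φ (a j k)) x c = φ (row a x c) := by
  rcases c with j | ⟨i, k⟩
  · simp only [row, Sum.elim_inl]
    split_ifs <;> simp
  · simp only [row, Sum.elim_inr, normal]
    split_ifs <;> simp

open Classical in
/-- every row is a combination of the rows of `I`, over the polynomial ring -/
lemma relation (hd : 2 ≤ d) (I : Set (V × F))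
    (hI : IsVertexConnected (2 * d) (incidenceGraph I)) (x0 : V × F) :
    ∃ (b : MvPolynomial (F × Fin (d - 1)) ℚ) (q : {x // x ∈ I} → MvPolynomial (F × Fin (d - 1)) ℚ),
      b ≠ 0 ∧ ∀ c, b * row (fun j k => MvPolynomial.X (j, k)) x0 c =
        ∑ x : {x // x ∈ I}, q x * row (fun j k => MvPolynomial.X (j, k)) x.1 c := by
  let R := MvPolynomial (F × Fin (d - 1)) ℚ
  let K := FractionRing R
  let aK : F → Fin (d - 1) → K := fun j k => algebraMap R K (MvPolynomial.X (j, k))
  have hinj : Function.Injective (algebraMap R K) := IsFractionRing.injective R K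
  have hrow : ∀ x c, row aK x c = algebraMap R K (row (V := V) (fun j k => MvPolynomial.X (j, k)) x c) :=
    fun x c => row_map (algebraMap R K) (fun j k => MvPolynomial.X (j, k)) x c
  have hnormal : ∀ j (k : Fin d), normal aK j k = algebraMap R K (nR j k) := by
    intro j k
    unfold nR normal
    split_ifs
    · rfl
    · simp
  let L : V × F → (F ⊕ (V × Fin d) → K) →ₗ[K] K := fun x =>
    ∑ c, row aK x c • LinearMap.proj c
  have hL : ∀ x y, L x y = ∑ k, normal aK x.2 k * y (Sum.inr (x.1, k)) + y (Sum.inl x.2) := by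
    intro x y
    rw [← row_dot]
    simp [L, LinearMap.sum_apply]
  -- each face has an incident vertex
  have hface : ∀ j : F, ∃ i, (i, j) ∈ I := by
    intro j
    by_contra hno
    push Not at hno
    have h1 := hI.2 ∅ (by simp; omega)
    have h2 := conn_prop h1 (fun w => w = Sum.inr j) (by
      intro u _ v _ huv hu
      subst hu
      rw [adj_inr] at huv
      obtain ⟨i, _, hi⟩ := huv
      exact absurd hi (hno i)) (u := Sum.inr j) (by simp) rfl (v := Sum.inl x0.1) (by simp)
    simp at h2
  have hker : ⨅ x : {x // x ∈ I}, LinearMap.ker (L x.1) ≤ LinearMap.ker (L x0) := by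
    intro y hy
    rw [Submodule.mem_iInf] at hy
    rw [LinearMap.mem_ker]
    obtain ⟨b, hb⟩ := IsLocalization.exist_integer_multiples_of_finite (nonZeroDivisors R) y
    choose z hz using hb
    have hb0 : algebraMap R K (b : R) ≠ 0 := by
      intro h
      have : (b : R) = 0 := hinj (by rw [h, map_zero])
      exact nonZeroDivisors.ne_zero b.2 this
    have hz' : ∀ c, algebraMap R K (z c) = algebraMap R K (b : R) * y c := by
      intro c
      rw [hz c, Algebra.smul_def]
    have hsol : Sol (fun i j => (i, j) ∈ I) (fun i k => z (Sum.inr (i, k))) (fun j => z (Sum.inl j)) := by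
      intro i j hij
      apply hinj
      have h1 := hy ⟨(i, j), hij⟩
      rw [LinearMap.mem_ker, hL] at h1
      rw [map_add, map_sum, map_zero]
      simp only [map_mul, hz']
      have h2 : ∑ k, algebraMap R K (nR j k) * (algebraMap R K (b : R) * y (Sum.inr (i, k))) =
          algebraMap R K (b : R) * ∑ k, normal aK j k * y (Sum.inr (i, k)) := by
        rw [Finset.mul_sum]
        apply Finset.sum_congr rfl
        intro k _
        rw [hnormal]; ring
      rw [h2, ← mul_add]
      simp only at h1
      rw [h1, mul_zero]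
    obtain ⟨i1, hi1⟩ := hface x0.2
    have hc := const_of_conn hd I hI _ _ hsol x0.1 i1
    have hc' : ∀ k, y (Sum.inr (x0.1, k)) = y (Sum.inr (i1, k)) := by
      intro k
      have h1 := congrArg (algebraMap R K) (congrFun hc k)
      simp only [hz'] at h1
      exact mul_left_cancel₀ hb0 h1
    have h1 := hy ⟨(i1, x0.2), hi1⟩
    rw [LinearMap.mem_ker, hL] at h1
    rw [hL]
    simp only at h1
    simp only [hc']
    exact h1
  obtain ⟨q, hq⟩ := (Submodule.mem_span_range_iff_exists_fun K).1 (mem_span_of_iInf_ker_le_ker hker)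
  obtain ⟨b, hb⟩ := IsLocalization.exist_integer_multiples_of_finite (nonZeroDivisors R) q
  choose q' hq' using hb
  refine ⟨b, q', nonZeroDivisors.ne_zero b.2, ?_⟩
  intro c
  apply hinj
  rw [map_mul, map_sum, ← hrow]
  have h1 : ∀ x, L x (Pi.single c 1) = row aK x c := by
    intro x
    simp only [L, LinearMap.sum_apply, LinearMap.smul_apply, LinearMap.proj_apply, smul_eq_mul]
    rw [Finset.sum_eq_single c]
    · simp
    · intro c' _ hc'
      rw [Pi.single_eq_of_ne hc', mul_zero]
    · intro h; exact absurd (Finset.mem_univ _) h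
  have h2 := congrArg (fun T => T (Pi.single c 1)) hq
  simp only [LinearMap.sum_apply, LinearMap.smul_apply, smul_eq_mul, h1] at h2
  rw [← h2, Finset.mul_sum]
  apply Finset.sum_congr rfl
  intro x _
  rw [map_mul, ← hrow, hq' x, Algebra.smul_def]
  ring

/-- Theorem. If the incidence graph of `(V, F; I)` is `2d`-vertex-connected, `d ≥ 2`, then `I`
spans the generic `d`-parallel matroid on `V × F`. -/
theorem result (d : ℕ) (hd : 2 ≤ d) {V F : Type} [Fintype V] [Fintype F] [DecidableEq V]
    [DecidableEq F] (I : Set (V × F)) (hI : IsVertexConnected (2 * d) (incidenceGraph I))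
    (a : F → Fin (d - 1) → ℝ)
    (ha : AlgebraicIndependent ℚ (fun x : F × Fin (d - 1) => a x.1 x.2)) :
    parRank a I = parRank a (Set.univ : Set (V × F)) := by
  classical
  have hmem : ∀ x0 : V × F, row a x0 ∈ Submodule.span ℝ (row a '' I) := by
    intro x0
    obtain ⟨b, q, hb, hrel⟩ := relation hd I hI x0
    set φ := MvPolynomial.aeval (R := ℚ) (fun x : F × Fin (d - 1) => a x.1 x.2) with hφ
    have hφb : φ b ≠ 0 := by
      intro h
      exact hb (ha (by rw [h, map_zero]))
    have hφrow : ∀ x : V × F, ∀ c, φ (row (fun j k => MvPolynomial.X (j, k)) x c) = row a x c := by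
      intro x c
      have := row_map (φ : MvPolynomial (F × Fin (d - 1)) ℚ →+* ℝ)
        (fun j k => MvPolynomial.X (j, k)) x c
      rw [AlgHom.coe_toRingHom] at this
      rw [← this]
      congr 1
      funext j k
      rw [hφ, MvPolynomial.aeval_X]
    have h1 : row a x0 = ∑ x : {x // x ∈ I}, ((φ b)⁻¹ * φ (q x)) • row a x.1 := by
      funext c
      have h2 := congrArg φ (hrel c)
      rw [map_mul, map_sum, hφrow] at h2
      simp only [map_mul, hφrow] at h2
      rw [Finset.sum_apply]
      simp only [Pi.smul_apply, smul_eq_mul, mul_assoc]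
      rw [← Finset.mul_sum, ← h2, inv_mul_cancel_left₀ hφb]
    rw [h1]
    apply Submodule.sum_mem
    intro x _
    exact Submodule.smul_mem _ _ (Submodule.subset_span ⟨x.1, x.2, rfl⟩)
  unfold parRank
  have : Submodule.span ℝ (row a '' I) = Submodule.span ℝ (row a '' (Set.univ : Set (V × F))) := by
    apply le_antisymm
    · exact Submodule.span_mono (Set.image_mono (Set.subset_univ _))
    · rw [Submodule.span_le]
      rintro _ ⟨x0, _, rfl⟩
      exact hmem x0
  rw [this]

end main

end Pool.Agent.Results.MP_471f68_co.Spanning
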